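import Mathlib
import Pool.Agent.WNT.Net2

/-!
Sections over a local field `F` of residue characteristic `2`: for a suitable finite set `A`, every
section of the fundamental group of a curve with a map `x` to the line which is evenly ramified
over `A` takes at the functions `x - a` the values `z - a`, modulo squares, of a point `z`.
-/

namespace Pool.Agent.Results.MP_896029_ag.ExactNets

open Pool.Agent.Helper36 WNT IsLocalRing

universe v w

/-- Let `O` be a henselian discrete valuation ring with finite residue field of characteristic `2`
and fraction field `F` of characteristic `0` (for instance `F` a finite extension of the `2`-adic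
numbers), and let `k` be a dense subfield of `F` (for instance `k = F`, or a number field).
Every finite subset `A₀` of `k` is contained in a finite subset `A` of `k` with the following
property.  Let `K` be an extension of `k` with an algebraic closure `Ω`, let `x` in `K` be
transcendental over `k` and let the divisor of `x - a` be divisible by `2` for all `a` in `A`.
Let `M` be a field between `netCover 2 k A x` and `Ω` (for instance `M = univCover k K Ω`, when
`Gal(M / K)` is the fundamental group), and let `s` be a continuous section of the restriction
`Gal(M / K) → Gal(kbar / k)`.  Then there are a point `z` of `F` and elements `δ a` of `k` such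
that for all `a` in `A`:
the quotient `(x - a) / δ a` is the square of an element of `M` fixed by the image of `s` (so
`δ a` is, modulo squares, the value of `s` at `x - a`), and `(z - a) / δ a` is a nonzero square
in `F`. -/
theorem result {O F k : Type*} [CommRing O] [IsDomain O] [IsDiscreteValuationRing O]
    [HenselianLocalRing O] [Finite (ResidueField O)] [Field F] [CharZero F] [Algebra O F]
    [IsFractionRing O F] [Field k] [Algebra k F] (h2 : (2 : O) ∈ maximalIdeal O)
    (hdense : ∀ (c : F) (r : O), r ≠ 0 → ∃ a : k, IsClose r (algebraMap k F a) c)
    (A₀ : Finset k) :
    ∃ A : Finset k, A₀ ⊆ A ∧ ∀ (K : Type v) (Ω : Type w) [Field K] [Field Ω] [Algebra k K]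
      [Algebra K Ω] [Algebra k Ω] [IsScalarTower k K Ω] [IsAlgClosure K Ω] (x : K),
      Transcendental k x → (∀ a ∈ A, DivisorDivisible k 2 (x - algebraMap k K a)) →
      ∀ M : IntermediateField K Ω, netCover 2 k K Ω A x ≤ M → ∀ s : GalSection k M,
      ∃ (z : F) (δ : k → k), ∀ a ∈ A, δ a ≠ 0 ∧ IsValue 2 s x a (δ a) ∧
        IsPointValue 2 z a (δ a) :=
  net2 h2 hdense A₀

end Pool.Agent.Results.MP_896029_ag.ExactNets
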