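import Mathlib
import Pool.Agent.Helper36.SecNames
import Pool.Agent.WMS.Main
import Pool.Agent.WMS.Names2

/-!
Ramified quadratic twists of hyperelliptic curves with good reduction: every section of the
fundamental exact sequence agrees, on the maximal abelian extension of exponent two of the
geometric function field in the universal cover, with the decomposition group of a Weierstrass
point.
-/

namespace Pool.Agent.Results.MP_896029_ag.FirstLayer

open Pool.Agent.Helper36 Pool.Agent.WMS Polynomial IsLocalRing

/-- Let `A` be a discrete valuation ring in which `2` is invertible, with finite residue field and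
fraction field `k` of characteristic zero.  Let `f ∈ A[X]` have even degree at least `6` and
invertible leading coefficient, and let its reduction modulo the maximal ideal be separable.
Let `c = u * ϖ ^ n` with `u` a unit, `ϖ` a uniformizer and `n` odd.  Let `K` be an extension field
of `k` containing `x`, `y` with `x` transcendental over `k` and `c * y ^ 2 = f(x)`, for instance the
function field of this hyperelliptic curve.  Let `V` be a valuation ring of the algebraic closure
`kbar` of `k` (in `Ω`) with `V ∩ k = A`, and let `s` be a section of the fundamental exact sequence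
of `K` over `k`.
Then there is a root `a` of `f`, fixed by the decomposition group `D` of `V`, which is the only root
`b` of `f` for which there is a discrete valuation `w` of the first layer
`L = kbar(x, y, √((x - a')(x - a'')) : f(a') = f(a'') = 0)` of `K~`, trivial on `kbar`, with residue
field `kbar` and centred at `x = b`, such that `s(D)` maps `L` to itself and respects `w`. -/
theorem result {A k K Ω : Type*} [CommRing A] [IsDomain A] [IsDiscreteValuationRing A]
    [Finite (ResidueField A)] (h2 : IsUnit (2 : A)) [Field k] [CharZero k] [Algebra A k]
    [IsFractionRing A k] [Field K] [Field Ω] [Algebra k K] [Algebra K Ω] [Algebra k Ω]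
    [IsScalarTower k K Ω] [IsAlgClosure K Ω] (f : A[X]) (hf : GoodPoly f) (c : A)
    (hc : OddValued c) (x y : K) (hxy : OnTwist k f c x y)
    (V : ValuationSubring (ConstClosure k Ω)) (hV : LiesOver A V) (s : PiOneSection k K Ω) :
    ∃ a : ConstClosure k Ω, (∀ σ ∈ decompGroup V, σ a = a) ∧
      ∀ b : ConstClosure k Ω, aeval b (f.map (algebraMap A k)) = 0 ∧
        FollowsPoint (f.map (algebraMap A k)) x y s (decompGroup V) b ↔ b = a := by
  obtain ⟨u, ϖ, n, hu, hϖ, hn, rfl⟩ := hc
  obtain ⟨heven, h6, hlead, hsep⟩ := hf
  obtain ⟨a, ha, hfix, hw, huniq⟩ :=
    main_names h2 f heven h6 hlead hsep ϖ hϖ u hu n hn x y hxy.1 hxy.2 V hV s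
  refine ⟨a, hfix, fun b => ⟨fun hb => huniq b hb.1 ((followsPoint_iff _ x y s _ b).mp hb.2), ?_⟩⟩
  rintro rfl
  exact ⟨ha, (followsPoint_iff _ x y s _ _).mpr hw⟩

end Pool.Agent.Results.MP_896029_ag.FirstLayer
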