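import Mathlib
import Pool.Agent.Helper36.SecConv
import Pool.Agent.GFL.Names
import Pool.Agent.GFL.Fin

/-!
For almost all quadratic twists of a hyperelliptic curve every section of the fundamental exact
sequence agrees with a rational Weierstrass point: modulo squares and, if the point is unique, on the
maximal abelian extension of exponent two of the geometric function field in the universal cover
(or there is no section).
-/

namespace Pool.Agent.Results.MP_896029_ag.SectionsFirstLayer

open Pool.Agent.Helper36 Pool.Agent.GFL Polynomial

/-- Let `f ∈ ℤ[X]` be squarefree over `ℚ`, of even degree at least `6`, and let `m` be the number of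
its irreducible factors of odd degree over `ℚ`.  Suppose that `m ≠ 2`, or that some automorphism of
the field of algebraic numbers fixes no root of `f`, or that `f` has degree `6` and no rational root.
Then there are `C` and `δ > 0` such that for all `N ≥ 2` the following holds for all but at most
`C N / (log N)^δ` of the integers `d` with `|d| ≤ N`.  For every extension field `K` of `ℚ` containing
`x`, `y` with `x` transcendental over `ℚ` and `d * y ^ 2 = f(x)` (for instance the function field of this
hyperelliptic curve) and every section `s` of its fundamental exact sequence over `ℚ` there is a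
nonempty set `L` of at most two rational roots of `f` (or of four, if `m = 4`) such that `s` agrees
modulo squares with all `a ∈ L` and such that, if `m ≥ 4` and `L = {a}`, the image of `s` respects a
place above `x = a` of the first layer `ℚbar(x, y, √((x - a')(x - a'')) : f(a') = f(a'') = 0)` of
the universal cover. -/
theorem result (f : ℤ[X]) (hsq : Squarefree (f.map (Int.castRingHom ℚ)))
    (heven : Even f.natDegree) (h6 : 6 ≤ f.natDegree) (m : ℕ)
    (hm : m = ((UniqueFactorizationMonoid.normalizedFactors (f.map (Int.castRingHom ℚ))).filter
        (fun g => Odd g.natDegree)).card)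
    (h : m ≠ 2 ∨
      (∃ σ : AlgebraicClosure ℚ ≃ₐ[ℚ] AlgebraicClosure ℚ,
        ∀ x : AlgebraicClosure ℚ, aeval x f = 0 → σ x ≠ x) ∨
      (f.natDegree = 6 ∧ ∀ x : ℚ, aeval x f ≠ 0)) :
    ∃ C δ : ℝ, 0 < δ ∧ ∀ N : ℕ, 2 ≤ N →
      (Nat.card {d : ℤ // |d| ≤ N ∧ HasUnexplained f m d} : ℝ) ≤ C * N / (Real.log N) ^ δ := by
  refine Pool.Agent.GFL.final3 f hsq heven h6 m ?_ h
  convert hm

end Pool.Agent.Results.MP_896029_ag.SectionsFirstLayer
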