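import Mathlib
import Pool.Agent.WNT.Net1

/-!
Sections over a local field `F` of residue characteristic `p` containing the `p`-th roots of unity:
for an explicit set `A`, every section of the fundamental group of a curve with a map `x` to the
line whose ramification over `A` is divisible by `p` takes at the functions `x - a`, for `a` in a
subset of separated points, the values `z - a`, modulo `p`-th powers, of a point `z`.
-/

namespace Pool.Agent.Results.MP_896029_ag.WildNets

open Pool.Agent.Helper36 WNT IsLocalRing

/-- Let `p` be a prime, `O` a henselian discrete valuation ring with finite residue field of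
characteristic `p`, uniformizer `ϖ` and fraction field `F` of characteristic `0`, `k` a subfield of
`F` which contains the `p`-th roots of unity, `e` the valuation of `p` and `E = p e / (p - 1)`.
Let `A` be a subset of `k` which contains an approximation modulo
`ϖ ^ (R + 2 (E + 2) [F* : F*^p] + 3 E + 5)` of every `c` in `F` with `ϖ ^ (2 E) c` integral, and let
`A₀` be a set of integral elements of `A` which are pairwise different modulo `ϖ ^ (R + 1)`.
Let `K` be an extension of `k` with an algebraic closure `Ω`, let `x` in `K` be transcendental over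
`k` and let the divisor of `x - a` be divisible by `p` for all `a` in `A`.
Let `M` be a field between `netCover p k A x` and `Ω` (for instance `M = univCover k K Ω`, when
`Gal(M / K)` is the fundamental group), and let `s` be a continuous section of the restriction
`Gal(M / K) → Gal(kbar / k)`.  Then there are a point `z` of `F` and elements `δ a` of `k` such
that:
for all `a` in `A`, the quotient `(x - a) / δ a` is the `p`-th power of an element of `M` fixed by
the image of `s` (so `δ a` is, modulo `p`-th powers, the value of `s` at `x - a`), and for all `a`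
in `A₀`, the quotient `(z - a) / δ a` is a nonzero `p`-th power in `F`. -/
theorem result {O F k K Ω : Type*} [CommRing O] [IsDomain O]
    [IsDiscreteValuationRing O] [HenselianLocalRing O] [Finite (ResidueField O)] [Field F]
    [CharZero F] [Algebra O F] [IsFractionRing O F] [Field k] [Algebra k F] [Field K] [Field Ω]
    [Algebra k K] [Algebra K Ω] [Algebra k Ω] [IsScalarTower k K Ω] [IsAlgClosure K Ω]
    {p : ℕ} (hp : p.Prime) (hpO : (p : O) ∈ maximalIdeal O) {ζ : k}
    (hζ : IsPrimitiveRoot ζ p) {ϖ : O} (hϖ : Irreducible ϖ) {e E : ℕ}
    (he : Associated (p : O) (ϖ ^ e)) (hE : E * (p - 1) = p * e) (R : ℕ) (A A₀ : Set k)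
    (hA : ∀ c : F, IsClose (1 : O) (algebraMap O F ϖ ^ (2 * E) * c) 0 →
      ∃ a ∈ A, IsClose (ϖ ^ netLevel F p E R) (algebraMap k F a) c)
    (hA₀ : A₀ ⊆ A) (h0 : ∀ a ∈ A₀, IsClose (1 : O) (algebraMap k F a) 0)
    (hs : ∀ a ∈ A₀, ∀ b ∈ A₀, IsClose (ϖ ^ (R + 1)) (algebraMap k F a) (algebraMap k F b) →
      a = b)
    (x : K) (hx : Transcendental k x)
    (hdiv : ∀ a ∈ A, DivisorDivisible k p (x - algebraMap k K a))
    (M : IntermediateField K Ω) (hM : netCover p k K Ω A x ≤ M) (s : GalSection k M) :
    ∃ (z : F) (δ : k → k), (∀ a ∈ A, δ a ≠ 0 ∧ IsValue p s x a (δ a)) ∧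
      ∀ a ∈ A₀, IsPointValue p z a (δ a) :=
  net1 hp hpO hζ hϖ he hE R A A₀ hA hA₀ h0 hs x hx hdiv M hM s

end Pool.Agent.Results.MP_896029_ag.WildNets
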